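import Mathlib
import Pool.Agent.Helper344.Blum9
import Pool.Agent.Helper344.BlumEx

/-!
# Recursive sets that do not help each other at almost all inputs

For every relative Blum measure there is a recursive overhead `g` such that for every recursive `A`
and every recursive `s` there is a recursive `B` such that

* every program for `B`, with or without the oracle `A`, needs more than `s` steps almost
  everywhere, and there is a program for `B` without an oracle which is faster almost everywhere;
* for every program for `A` with the oracle `B` there is a program for `A` without an oracle which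
  is slower only by the overhead `g`, almost everywhere;
* hence `A` and `B` do not help each other in the sense of the conditions (i) and (ii), and this for
  all bounds `t`, recursive or not.
-/

set_option autoImplicit false

namespace Pool.Agent.Y618.Kept.AlmostEverywhere

open Pool.Agent.Helper344.Blum

/-- `φ_i^X = c_A`: with oracle `X`, program `i` computes the characteristic function of `A`. -/
def Computes (M : RelBlum) (X : ℕ → Bool) (i : ℕ) (A : ℕ → Bool) : Prop :=
  ∀ x, (A x).toNat ∈ M.φ i X x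

/-- `Φ_i^X >_io t`. -/
def GtIO (M : RelBlum) (X : ℕ → Bool) (i : ℕ) (t : ℕ → ℕ) : Prop :=
  ∀ N, ∃ x, N ≤ x ∧ ∃ y ∈ M.Φ i X x, t x < y

/-- `Φ_i^X >_ae t`. -/
def GtAE (M : RelBlum) (X : ℕ → Bool) (i : ℕ) (t : ℕ → ℕ) : Prop :=
  ∃ N, ∀ x, N ≤ x → ∃ y ∈ M.Φ i X x, t x < y

/-- `Φ^X-Comp(A) >_io t`. -/
def CompIO (M : RelBlum) (X A : ℕ → Bool) (t : ℕ → ℕ) : Prop :=
  ∀ i, Computes M X i A → GtIO M X i t

/-- `Φ^X-Comp(A) >_ae t`. -/
def CompAE (M : RelBlum) (X A : ℕ → Bool) (t : ℕ → ℕ) : Prop :=
  ∀ i, Computes M X i A → GtAE M X i t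

/-- Condition (i), for all bounds `t`, recursive or not: the oracle `B` does not help the
computation of `A`, up to the overhead `g`. -/
def CondI (M : RelBlum) (g : ℕ → ℕ → ℕ) (A B : ℕ → Bool) : Prop :=
  ∀ t : ℕ → ℕ, CompIO M emp A (fun x => g x (t x)) → CompIO M B A t

/-- Condition (ii), for all bounds `t`, recursive or not: the oracle `A` does not help the
computation of `B`. -/
def CondII (M : RelBlum) (A B : ℕ → Bool) : Prop :=
  ∀ t : ℕ → ℕ, CompIO M emp B t → CompIO M A B t

/-- For almost all `x`, the values `y` of `Φ_i^X` and `z` of `Φ_j` (without an oracle) at `x` are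
defined and in the relation `R x y z`. -/
def Almost (M : RelBlum) (X : ℕ → Bool) (i j : ℕ) (R : ℕ → ℕ → ℕ → Prop) : Prop :=
  ∃ N, ∀ x, N ≤ x → ∃ y ∈ M.Φ i X x, ∃ z ∈ M.Φ j emp x, R x y z

/-- Sanity check: relative Blum measures exist (the standard numbering by r.e. sets of axioms,
with search time as complexity). -/
theorem relBlum_nonempty : Nonempty RelBlum := ⟨stdBlum⟩

/-- For every relative Blum measure there is `g` such that for every recursive `A` and every
recursive `s` there is a recursive `B` such that: the complexity of `B`, with or without the oracle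
`A`, is above `s` almost everywhere; for every program `k` for `B`, with or without the oracle `A`,
there is a program `j` for `B` without an oracle with `Φ_j (x) < Φ_k (x)` for almost all `x`; for every
program `i` for `A` with the oracle `B` there is a program `j` for `A` without an oracle with
`Φ_j (x) ≤ g (x, t)` for all `t ≥ Φ_i^B (x)`, for almost all `x`; and (i) and (ii) hold for all bounds
`t`, recursive or not. -/
theorem result : ∀ M : RelBlum, ∃ g : ℕ → ℕ → ℕ, Computable₂ g ∧
    ∀ A : ℕ → Bool, Computable A → ∀ s : ℕ → ℕ, Computable s →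
      ∃ B : ℕ → Bool, Computable B ∧ (CompAE M emp B s ∧ CompAE M A B s) ∧
        (∀ X : ℕ → Bool, X = emp ∨ X = A → ∀ k, Computes M X k B →
          ∃ j, Computes M emp j B ∧ Almost M X k j (fun _ y z => z < y)) ∧
        (∀ i, Computes M B i A →
          ∃ j, Computes M emp j A ∧ Almost M B i j (fun x y z => ∀ t, y ≤ t → z ≤ g x t)) ∧
        CondI M g A B ∧ CondII M A B := by
  intro M
  obtain ⟨g, hg, hcore⟩ := core M
  refine ⟨g, hg, fun A hA s hs => ?_⟩
  obtain ⟨B, hB, h1, h2⟩ := hcore A hA s hs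
  have hdef : ∀ (X C : ℕ → Bool) (k : ℕ), Computes M X k C → ∀ x, ∃ y, y ∈ M.Φ k X x := by
    intro X C k hk x
    exact Part.dom_iff_mem.1 ((M.dom _ _ _).1 (Part.dom_iff_mem.2 ⟨_, hk x⟩))
  have hae : ∀ X : ℕ → Bool, X = emp ∨ X = A → CompAE M X B s := by
    intro X hX k hk
    obtain ⟨j, _, x1, hx1⟩ := h2 k X hX hk
    refine ⟨x1, fun x hx => ?_⟩
    obtain ⟨y, hy⟩ := hdef _ _ _ hk x
    obtain ⟨z, hz, hsz, _⟩ := hx1 x hx y hy
    exact ⟨y, hy, by omega⟩
  refine ⟨B, hB, ⟨hae emp (Or.inl rfl), hae A (Or.inr rfl)⟩, ?_, ?_, ?_, ?_⟩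
  · intro X hX k hk
    obtain ⟨j, hj, x1, hx1⟩ := h2 k X hX hk
    refine ⟨j, hj, x1, fun x hx => ?_⟩
    obtain ⟨y, hy⟩ := hdef _ _ _ hk x
    obtain ⟨w, hw, _, y', hy', hle⟩ := hx1 x hx y hy
    exact ⟨y, hy, y', hy', by omega⟩
  · intro i hi
    obtain ⟨j, hj, x1, hx1⟩ := h1 i hi
    refine ⟨j, hj, x1, fun x hx => ?_⟩
    obtain ⟨y, hy⟩ := hdef _ _ _ hi x
    obtain ⟨z, hz⟩ := hdef _ _ _ hj x
    refine ⟨y, hy, z, hz, fun t ht => ?_⟩
    obtain ⟨z', hz', hle⟩ := hx1 x hx y hy t ht
    rw [Part.mem_unique hz hz']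
    exact hle
  · intro t hA' i hi N
    obtain ⟨j, hj, x1, hx1⟩ := h1 i hi
    obtain ⟨x, hx, z, hz, hlt⟩ := hA' j hj (max N x1)
    obtain ⟨y, hy⟩ := hdef _ _ _ hi x
    refine ⟨x, by omega, y, hy, ?_⟩
    by_contra hcon
    obtain ⟨z', hz', hle⟩ := hx1 x (by omega) y hy (t x) (by omega)
    rw [Part.mem_unique hz' hz] at hle
    simp only at hlt
    omega
  · intro t hB' k hk N
    obtain ⟨j, hj, x1, hx1⟩ := h2 k A (Or.inr rfl) hk
    obtain ⟨x, hx, z, hz, hlt⟩ := hB' j hj (max N x1)
    obtain ⟨y, hy⟩ := hdef _ _ _ hk x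
    obtain ⟨w, hw, _, y', hy', hle⟩ := hx1 x (by omega) y hy
    rw [Part.mem_unique hy' hz] at hle
    exact ⟨x, by omega, y, hy, by omega⟩

end Pool.Agent.Y618.Kept.AlmostEverywhere
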